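import Pool.Agent.L7lead.TC.Stm

/-!
# Vertices of rational Minkowski combinations of lattice polygons
-/

set_option autoImplicit false

namespace Pool.Agent.L7h73.TC

open Pool.Agent.L7lead.TC

lemma low_le (P : LatticePolygon) (u : ℤ × ℤ) {m : ℤ × ℤ} (hm : m ∈ P.points) :
    P.low u ≤ pair u m := Finset.inf'_le _ hm

lemma low_eq (P : LatticePolygon) (u : ℤ × ℤ) {v : ℤ × ℤ} (hv : v ∈ P.points)
    (h : ∀ m ∈ P.points, pair u v ≤ pair u m) : P.low u = pair u v :=
  le_antisymm (low_le P u hv) (Finset.le_inf' _ _ h)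

/-- the lexicographic minimum minimizes many linear functions -/
lemma lex_min (u : ℤ × ℤ) {D A B C : ℤ} (hD : 0 ≤ D) (hC : 0 ≤ C) (hB : C * (2 * D) < B)
    (hA : (B + C) * (2 * D) < A) {v m : ℤ × ℤ} (hv1 : |v.1| ≤ D) (hv2 : |v.2| ≤ D)
    (hm1 : |m.1| ≤ D) (hm2 : |m.2| ≤ D)
    (h : pair u v < pair u m ∨ pair u v = pair u m ∧ (v.1 < m.1 ∨ v.1 = m.1 ∧ v.2 ≤ m.2)) :
    pair (A * u.1 + B, A * u.2 + C) v ≤ pair (A * u.1 + B, A * u.2 + C) m := by
  have e : ∀ m : ℤ × ℤ, pair (A * u.1 + B, A * u.2 + C) m = A * pair u m + B * m.1 + C * m.2 := by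
    intro m
    simp only [pair]
    ring
  rw [e, e]
  have a1 := abs_le.1 hv1
  have a2 := abs_le.1 hv2
  have a3 := abs_le.1 hm1
  have a4 := abs_le.1 hm2
  have hB0 : 0 < B := lt_of_le_of_lt (mul_nonneg hC (by linarith)) hB
  have hA0 : 0 < A := lt_of_le_of_lt (mul_nonneg (by linarith) (by linarith)) hA
  have h2 : C * (v.2 - m.2) ≤ C * (2 * D) := mul_le_mul_of_nonneg_left (by linarith) hC
  have h3 : B * (v.1 - m.1) ≤ B * (2 * D) := mul_le_mul_of_nonneg_left (by linarith) hB0.le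
  rcases h with h | ⟨h, h' | ⟨h', h''⟩⟩
  · have h1 : A * 1 ≤ A * (pair u m - pair u v) := mul_le_mul_of_nonneg_left (by linarith) hA0.le
    nlinarith
  · have h1 : B * 1 ≤ B * (m.1 - v.1) := mul_le_mul_of_nonneg_left (by linarith) hB0.le
    rw [h]
    nlinarith
  · rw [h, h']
    have := mul_le_mul_of_nonneg_left h'' hC
    linarith

theorem s_VER : S_VER := by
  intro ι _ P α H hα hH u
  classical
  -- the lexicographic minima
  have hex : ∀ i, ∃ v ∈ (P i).points, ∀ m ∈ (P i).points,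
      pair u v < pair u m ∨ pair u v = pair u m ∧ (v.1 < m.1 ∨ v.1 = m.1 ∧ v.2 ≤ m.2) := by
    intro i
    obtain ⟨v, hv, hmin⟩ := Finset.exists_min_image (P i).points
      (fun m : ℤ × ℤ => toLex (pair u m, toLex m)) (P i).nonempty
    refine ⟨v, hv, fun m hm => ?_⟩
    have h1 := hmin m hm
    rw [Prod.Lex.toLex_le_toLex] at h1
    rcases h1 with h1 | ⟨h1, h2⟩
    · exact Or.inl h1
    · refine Or.inr ⟨h1, ?_⟩
      exact Prod.Lex.toLex_le_toLex.1 h2
  choose v hv hmin using hex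
  -- the bound
  obtain ⟨D, hD0, hD⟩ : ∃ D : ℤ, 0 ≤ D ∧ ∀ i, ∀ m ∈ (P i).points, |m.1| ≤ D ∧ |m.2| ≤ D := by
    refine ⟨∑ i, ∑ m ∈ (P i).points, (|m.1| + |m.2|), Finset.sum_nonneg fun i _ =>
      Finset.sum_nonneg fun m _ => by positivity, fun i m hm => ?_⟩
    have h1 : |m.1| + |m.2| ≤ ∑ m ∈ (P i).points, (|m.1| + |m.2|) :=
      Finset.single_le_sum (f := fun m : ℤ × ℤ => |m.1| + |m.2|) (fun m _ => by positivity) hm
    have h2 : ∑ m ∈ (P i).points, (|m.1| + |m.2|) ≤ ∑ i, ∑ m ∈ (P i).points, (|m.1| + |m.2|) :=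
      Finset.single_le_sum (f := fun i => ∑ m ∈ (P i).points, (|m.1| + |m.2|))
        (fun i _ => Finset.sum_nonneg fun m _ => by positivity) (Finset.mem_univ i)
    have h3 := abs_nonneg m.1
    have h4 := abs_nonneg m.2
    constructor <;> linarith
  have key : ∀ A B C : ℤ, 0 ≤ C → C * (2 * D) < B → (B + C) * (2 * D) < A →
      (H (A * u.1 + B, A * u.2 + C) : ℚ) =
        ∑ i, α i * (pair (A * u.1 + B, A * u.2 + C) (v i) : ℚ) := by
    intro A B C hC hB hA
    rw [hH]
    refine Finset.sum_congr rfl fun i _ => ?_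
    rw [low_eq (P i) _ (hv i) fun m hm => lex_min u hD0 hC hB hA (hD i _ (hv i)).1
      (hD i _ (hv i)).2 (hD i m hm).1 (hD i m hm).2 (hmin i m hm)]
  set x : ℚ := ∑ i, α i * ((v i).1 : ℚ) with hx
  set y : ℚ := ∑ i, α i * ((v i).2 : ℚ) with hy
  have hlin : ∀ w : ℤ × ℤ, ∑ i, α i * (pair w (v i) : ℚ) = w.1 * x + w.2 * y := by
    intro w
    rw [hx, hy, Finset.mul_sum, Finset.mul_sum, ← Finset.sum_add_distrib]
    refine Finset.sum_congr rfl fun i _ => ?_
    simp only [pair]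
    push_cast
    ring
  set N : ℤ := 8 * D + 8 with hN
  have hN8 : 8 ≤ N := by linarith
  have k1 := key (N * N) N 1 (by norm_num) (by linarith) (by nlinarith)
  have k2 := key (N * N) N 2 (by norm_num) (by linarith) (by nlinarith)
  have k3 := key (N * N) (N + 1) 1 (by norm_num) (by linarith) (by nlinarith)
  rw [hlin] at k1 k2 k3
  push_cast at k1 k2 k3
  have hy' : y = ((H (N * N * u.1 + N, N * N * u.2 + 2) - H (N * N * u.1 + N, N * N * u.2 + 1) :
      ℤ) : ℚ) := by
    push_cast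
    rw [k1, k2]
    ring
  have hx' : x = ((H (N * N * u.1 + (N + 1), N * N * u.2 + 1) -
      H (N * N * u.1 + N, N * N * u.2 + 1) : ℤ) : ℚ) := by
    push_cast
    rw [k1, k3]
    ring
  set X : ℤ := H (N * N * u.1 + (N + 1), N * N * u.2 + 1) -
      H (N * N * u.1 + N, N * N * u.2 + 1) with hX
  set Y : ℤ := H (N * N * u.1 + N, N * N * u.2 + 2) - H (N * N * u.1 + N, N * N * u.2 + 1) with hY
  refine ⟨(X, Y), ?_, fun w => ?_⟩
  · have h1 : (pair u (X, Y) : ℚ) = H u := by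
      rw [hH]
      have h2 : ∑ i, α i * ((P i).low u : ℚ) = ∑ i, α i * (pair u (v i) : ℚ) := by
        refine Finset.sum_congr rfl fun i _ => ?_
        rw [low_eq (P i) u (hv i) fun m hm => ?_]
        rcases hmin i m hm with h | h
        · exact h.le
        · exact h.1.le
      rw [h2, hlin, hx', hy']
      simp only [pair]
      push_cast
      ring
    exact_mod_cast h1
  · have h1 : (H w : ℚ) ≤ pair w (X, Y) := by
      rw [hH]
      have h2 : ∑ i, α i * ((P i).low w : ℚ) ≤ ∑ i, α i * (pair w (v i) : ℚ) := by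
        refine Finset.sum_le_sum fun i _ => ?_
        refine mul_le_mul_of_nonneg_left ?_ (hα i)
        exact_mod_cast low_le (P i) w (hv i)
      refine h2.trans (le_of_eq ?_)
      rw [hlin, hx', hy']
      simp only [pair]
      push_cast
      ring
    exact_mod_cast h1

end Pool.Agent.L7h73.TC
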